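import Pool.Agent.V8H1.ChG.Main

set_option autoImplicit false
open Finset
open scoped ENNReal

namespace Pool.Agent.V8H1.ChG

theorem exists_set {h' g : ℕ} (hh : 1 ≤ h') (hg : 2 ≤ g) :
    ∃ (j0 : ℕ) (A : Set ℕ), (∀ y ∈ A, 1 ≤ y) ∧
      (∀ c : Kap h' g, Function.Injective c.1 → (∀ i, 1 ≤ c.1 i) → Function.Injective c.2 →
        ¬ ∀ p, sm c p ∈ A) ∧
      ∀ J, j0 ≤ J → ∃ F : Finset ℕ, (∀ y ∈ F, y ∈ A ∧ y < 4 ^ (J + 1)) ∧
        (1 / 16) * Real.exp (Real.log 4 * (1 - gam h' g) * J - 10 * √(J : ℝ)) ≤ F.card := by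
  classical
  -- the blocks
  choose T hT1 hTc hTf using exists_T
  have hnq : ∀ J, nJ h' g J * qJ h' g J ≤ (T J).card := fun J => by
    rw [hTc]; exact Nat.div_mul_le_self _ _
  choose G0 hG0 hG0d using fun J => chunk (nJ h' g J) (qJ h' g J) (T J) (hnq J)
  -- the constants
  obtain ⟨C, hC, hE⟩ := E_bound hh hg
  obtain ⟨jt, hjt⟩ := tail_lt (16 * C) (by positivity)
  have hlim : Filter.Tendsto (fun J : ℕ => (1 / 4) *
      Real.exp (Real.log 4 * (1 - gam h' g) * J - 10 * √(J : ℝ))) Filter.atTop Filter.atTop := by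
    apply Filter.Tendsto.const_mul_atTop (by norm_num)
    apply Real.tendsto_exp_atTop.comp
    have hη : 0 < Real.log 4 * (1 - gam h' g) :=
      mul_pos log4_pos (by have := gam_lt_one hh hg; linarith)
    have : (fun J : ℕ => Real.log 4 * (1 - gam h' g) * J - 10 * √(J : ℝ)) =
        (fun J : ℕ => √(J : ℝ) * (Real.log 4 * (1 - gam h' g) * √(J : ℝ) - 10)) := by
      ext J
      have := Real.mul_self_sqrt (show (0 : ℝ) ≤ J by positivity)
      nlinarith
    rw [this]
    have hs : Filter.Tendsto (fun J : ℕ => √(J : ℝ)) Filter.atTop Filter.atTop :=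
      Real.tendsto_sqrt_atTop.comp tendsto_natCast_atTop_atTop
    apply Filter.Tendsto.atTop_mul_atTop₀ hs
    apply Filter.tendsto_atTop_add_const_right
    exact Filter.Tendsto.const_mul_atTop hη hs
  obtain ⟨jb, hjb⟩ := Filter.eventually_atTop.1 (hlim.eventually_ge_atTop 2)
  set j0 := max (max jt jb) 1 with hj0
  have hnge : ∀ J, j0 ≤ J →
      (1 / 8) * Real.exp (Real.log 4 * (1 - gam h' g) * J - 10 * √(J : ℝ)) ≤ nJ h' g J := by
    intro J hJ
    apply nJ_ge hh hg J (by omega)
    exact hjb J (by omega)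
  -- the groups
  let N : ℕ → ℕ := fun J => if J < j0 then 0 else nJ h' g J
  have hN : ∀ J, N J ≤ nJ h' g J := by
    intro J; simp only [N]; split_ifs <;> omega
  let G : (Σ J : ℕ, Fin (N J)) → Finset ℕ := fun i => G0 i.1 i.2
  have hGsub : ∀ i, G i ⊆ T i.1 := fun i => (hG0 i.1 i.2 (lt_of_lt_of_le i.2.2 (hN i.1))).1
  have hGcard : ∀ i, (G i).card = qJ h' g i.1 :=
    fun i => (hG0 i.1 i.2 (lt_of_lt_of_le i.2.2 (hN i.1))).2
  have hGne : ∀ i, (G i).Nonempty := by
    intro i
    rw [← Finset.card_pos, hGcard]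
    exact qJ_pos _ _ _
  have hlogG : ∀ i, ∀ y ∈ G i, Nat.log 4 y = i.1 := fun i y hy => log_eq_of_mem (hT1 _ _ (hGsub i hy))
  have hGdisj : ∀ i j y, y ∈ G i → y ∈ G j → i = j := by
    rintro ⟨J, i⟩ ⟨J', i'⟩ y hy hy'
    have e1 := hlogG _ y hy
    have e2 := hlogG _ y hy'
    simp only at e1 e2
    have : J = J' := by omega
    subst this
    congr 1
    by_contra hne
    have hne' : (i : ℕ) ≠ i' := fun h => hne (Fin.ext h)
    have := hG0d J i (lt_of_lt_of_le i.2 (hN J)) i' (lt_of_lt_of_le i'.2 (hN J)) hne'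
    exact (Finset.disjoint_left.1 this hy) hy'
  -- the choice
  have hw : ∀ i, ∀ y ∈ G i, ((G i).card : ℝ≥0∞)⁻¹ ≤ ENNReal.ofReal (wt h' g y) := by
    intro i y hy
    rw [hGcard]
    have h1 := W_ge h' g i.1
    have h2 : wt h' g y = W h' g i.1 := by
      unfold wt; rw [hlogG i y hy]
    rw [h2]
    have hq : (0 : ℝ) < (qJ h' g i.1 : ℝ) := by exact_mod_cast qJ_pos _ _ _
    rw [← ENNReal.ofReal_natCast, ← ENNReal.ofReal_inv_of_pos hq]
    exact ENNReal.ofReal_le_ofReal h1
  let a : ℕ → ℝ≥0∞ := fun J => ENNReal.ofReal (if J < j0 then 0 else 2 / (nJ h' g J : ℝ))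
  obtain ⟨ω, hω, hsum⟩ := exists_choice G hGne hGdisj (fun y => ENNReal.ofReal (wt h' g y)) hw a
    (CJ h' g) (fun c : Kap h' g => Yc c)
  have hlt : ∑' J, a J * ∑ c ∈ CJ h' g J, ∏ y ∈ Yc c, ENNReal.ofReal (wt h' g y) < 1 := by
    refine lt_of_le_of_lt ?_ (hjt j0 (by omega))
    apply ENNReal.tsum_le_tsum
    intro J
    have e1 : ∑ c ∈ CJ h' g J, ∏ y ∈ Yc c, ENNReal.ofReal (wt h' g y) =
        ENNReal.ofReal (∑ c ∈ CJ h' g J, ∏ y ∈ Yc c, wt h' g y) := by
      rw [ENNReal.ofReal_sum_of_nonneg]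
      · apply Finset.sum_congr rfl
        intro c _
        rw [ENNReal.ofReal_prod_of_nonneg]
        intro y _
        exact (wt_pos _ _ _).le
      · intro c _
        exact Finset.prod_nonneg (fun y _ => (wt_pos _ _ _).le)
    rw [e1]
    simp only [a]
    rw [← ENNReal.ofReal_mul (by split_ifs <;> positivity)]
    apply ENNReal.ofReal_le_ofReal
    split_ifs with hJ
    · simp
    · have hn := hnge J (by omega)
      have hn0 : (0 : ℝ) < nJ h' g J := lt_of_lt_of_le (by positivity) hn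
      have hEJ := (sum_CJ_le (h' := h') (by omega : 1 ≤ g) (wt h' g) (wt_pos h' g)
        (wt_antitone hh hg) J).trans (hE J)
      calc 2 / (nJ h' g J : ℝ) * ∑ c ∈ CJ h' g J, ∏ y ∈ Yc c, wt h' g y
          ≤ 2 / ((1 / 8) * Real.exp (Real.log 4 * (1 - gam h' g) * J - 10 * √(J : ℝ))) *
            (C * Real.exp (Real.log 4 * (1 - gam h' g) * J - 5 * (g * (h' + 1)) * √(J : ℝ))) := by
            apply mul_le_mul
            · exact div_le_div_of_nonneg_left (by norm_num) (by positivity) hn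
            · exact hEJ
            · exact Finset.sum_nonneg (fun c _ => Finset.prod_nonneg (fun y _ => (wt_pos _ _ _).le))
            · positivity
        _ = 16 * C * Real.exp (-((5 * (g * (h' + 1)) - 10) * √(J : ℝ))) := by
            have : Real.exp (Real.log 4 * (1 - gam h' g) * J - 5 * (g * (h' + 1)) * √(J : ℝ)) =
              Real.exp (Real.log 4 * (1 - gam h' g) * J - 10 * √(J : ℝ)) *
                Real.exp (-((5 * (g * (h' + 1)) - 10) * √(J : ℝ))) := by
              rw [← Real.exp_add]; congr 1; ring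
            rw [this]
            field_simp
            ring
        _ ≤ 16 * C * Real.exp (-(10 * √(J : ℝ))) := by
            apply mul_le_mul_of_nonneg_left _ (by positivity)
            apply Real.exp_le_exp.2
            have h1 : (1 : ℝ) ≤ h' := by exact_mod_cast hh
            have h2 : (2 : ℝ) ≤ g := by exact_mod_cast hg
            have h3 : (4 : ℝ) ≤ g * (h' + 1) := by nlinarith
            have h4 := Real.sqrt_nonneg (J : ℝ)
            nlinarith
  have hlt2 := lt_of_le_of_lt hsum hlt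
  -- the number of the bad configurations
  let Bad : ℕ → Finset (Kap h' g) := fun J =>
    (CJ h' g J).filter (fun c => ∀ y ∈ Yc c, y ∈ Sel G ω)
  have hbad : ∀ J, j0 ≤ J → ((Bad J).card : ℝ) ≤ nJ h' g J / 2 := by
    intro J hJ
    have hn := hnge J hJ
    have hn0 : (0 : ℝ) < nJ h' g J := lt_of_lt_of_le (by positivity) hn
    have h1 : a J * ∑ c ∈ CJ h' g J,
        Set.indicator {ω | ∀ y ∈ Yc c, y ∈ Sel G ω} (fun _ => (1 : ℝ≥0∞)) ω < 1 :=
      lt_of_le_of_lt (ENNReal.le_tsum J) hlt2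
    have h2 : ∑ c ∈ CJ h' g J,
        Set.indicator {ω | ∀ y ∈ Yc c, y ∈ Sel G ω} (fun _ => (1 : ℝ≥0∞)) ω =
        ((Bad J).card : ℝ≥0∞) := by
      simp only [Bad, Finset.card_filter, Set.indicator_apply, Set.mem_ofPred_eq]
      push_cast
      rfl
    rw [h2] at h1
    simp only [a] at h1
    rw [if_neg (by omega), ← ENNReal.ofReal_natCast, ← ENNReal.ofReal_mul (by positivity),
      ← ENNReal.ofReal_one, ENNReal.ofReal_lt_ofReal_iff zero_lt_one] at h1
    have h3 : 2 * ((Bad J).card : ℝ) < nJ h' g J := by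
      have := mul_lt_mul_of_pos_left h1 hn0
      rw [mul_one, ← mul_assoc, mul_div_assoc', mul_div_assoc, mul_comm (nJ h' g J : ℝ), 
        div_mul_cancel₀ _ hn0.ne'] at this
      exact this
    linarith
  -- the deletion
  let D : Set ℕ := {y | ∃ c ∈ Bad (Nat.log 4 y), (Yc c).sup id = y}
  have hSelT : ∀ y ∈ Sel G ω, ∃ J, y ∈ T J := by
    rintro y ⟨i, hi, _⟩
    exact ⟨i.1, hGsub i hi⟩
  have hfree : ∀ x ∈ Sel G ω, ∀ y ∈ Sel G ω, ∀ z ∈ Sel G ω, x + z = y + y → x = y := by
    intro x hx y hy z hz h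
    exact free_union T hT1 hTf x y z (hSelT x hx) (hSelT y hy) (hSelT z hz) h
  refine ⟨j0, Sel G ω \ D, ?_, ?_, ?_⟩
  · rintro y ⟨hy, _⟩
    obtain ⟨J, hJ⟩ := hSelT y hy
    exact le_trans (Nat.one_le_pow _ _ (by norm_num)) (hT1 J y hJ).1
  · intro c hu hu0 hk hall
    have hsel : ∀ p, sm c p ∈ Sel G ω := fun p => (hall p).1
    have hinj := sm_injective c hu hu0 hk (Sel G ω) hfree hsel
    have hgpos : 0 < g := by omega
    have hYne : (Yc c).Nonempty := by
      unfold Yc
      exact ⟨_, Finset.mem_image_of_mem _ (Finset.mem_univ (none, (⟨0, hgpos⟩ : Fin g)))⟩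
    obtain ⟨y, hy, hysup⟩ := Finset.exists_mem_eq_sup (Yc c) hYne id
    simp only [id] at hysup
    obtain ⟨p, _, hp⟩ := Finset.mem_image.1 hy
    have hyD : y ∉ D := by rw [← hp]; exact (hall p).2
    apply hyD
    refine ⟨c, ?_, by rw [hysup]⟩
    have hmax : ∀ p, sm c p ≤ y := by
      intro p
      rw [← hysup]
      exact Finset.le_sup (f := id) (Finset.mem_image_of_mem (sm c) (Finset.mem_univ p))
    have hylt : y < 4 ^ (Nat.log 4 y + 1) := Nat.lt_pow_succ_log_self (by norm_num) y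
    have hpos : ∀ p, 1 ≤ sm c p := by
      intro p
      obtain ⟨J, hJ⟩ := hSelT _ (hsel p)
      exact le_trans (Nat.one_le_pow _ _ (by norm_num)) (hT1 J _ hJ).1
    simp only [Bad, Finset.mem_filter]
    constructor
    · unfold CJ
      rw [Finset.mem_filter]
      refine ⟨?_, hinj⟩
      rw [Finset.mem_product]
      constructor
      · rw [Fintype.mem_piFinset]
        intro i
        rw [Finset.mem_Ico]
        refine ⟨hu0 i, lt_of_le_of_lt ?_ hylt⟩
        refine le_trans ?_ (hmax (some i, ⟨0, hgpos⟩))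
        simp [sm]
      · rw [Fintype.mem_piFinset]
        intro j
        rw [Finset.mem_Ico]
        have h1 := hpos (none, j)
        have h2 := hmax (none, j)
        simp only [sm, Option.elim, zero_add] at h1 h2
        exact ⟨h1, lt_of_le_of_lt h2 hylt⟩
    · intro z hz
      obtain ⟨p, _, hp⟩ := Finset.mem_image.1 hz
      rw [← hp]; exact hsel p
  · intro J hJ
    have hNJ : N J = nJ h' g J := by simp only [N]; rw [if_neg (by omega)]
    let F0 : Finset ℕ := Finset.univ.image (fun i : Fin (N J) => ω ⟨J, i⟩)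
    have hF0c : F0.card = nJ h' g J := by
      rw [Finset.card_image_of_injective, Finset.card_univ, Fintype.card_fin, hNJ]
      intro i i' hii
      have e1 := hω ⟨J, i⟩
      have e2 := hω ⟨J, i'⟩
      simp only at hii
      rw [← hii] at e2
      have := hGdisj _ _ _ e1 e2
      simpa using this
    let F1 : Finset ℕ := (Bad J).image (fun c => (Yc c).sup id)
    refine ⟨F0 \ F1, ?_, ?_⟩
    · intro y hy
      rw [Finset.mem_sdiff] at hy
      obtain ⟨hy1, hy2⟩ := hy
      obtain ⟨i, _, hi⟩ := Finset.mem_image.1 hy1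
      have hyG : y ∈ G ⟨J, i⟩ := by rw [← hi]; exact hω _
      have hlog := hlogG _ y hyG
      simp only at hlog
      refine ⟨⟨⟨⟨J, i⟩, hyG, hi⟩, ?_⟩, ?_⟩
      · rintro ⟨c, hc, hc2⟩
        apply hy2
        rw [hlog] at hc
        exact Finset.mem_image.2 ⟨c, hc, hc2⟩
      · rw [← hlog]
        exact Nat.lt_pow_succ_log_self (by norm_num) y
    · have h1 : nJ h' g J ≤ (F0 \ F1).card + (Bad J).card := by
        calc nJ h' g J = F0.card := hF0c.symm
          _ ≤ (F0 \ F1).card + F1.card := by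
              have := Finset.card_le_card_sdiff_add_card (s := F0) (t := F1)
              omega
          _ ≤ (F0 \ F1).card + (Bad J).card := by
              have : F1.card ≤ (Bad J).card := Finset.card_image_le
              omega
      have h2 : (nJ h' g J : ℝ) ≤ ((F0 \ F1).card : ℝ) + ((Bad J).card : ℝ) := by exact_mod_cast h1
      have h3 := hbad J hJ
      have h4 := hnge J hJ
      linarith

lemma alpha_eq {h' g : ℕ} (hh : 1 ≤ h') (hg : 2 ≤ g) :
    (1 - 1 / ((h' + 1 : ℕ) : ℝ)) * (1 - 1 / (g : ℝ)) *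
      (1 + 1 / (((h' + 1 : ℕ) : ℝ) * (g : ℝ) - 1)) = 1 - gam h' g := by
  have h1 : (1 : ℝ) ≤ h' := by exact_mod_cast hh
  have h2 : (2 : ℝ) ≤ g := by exact_mod_cast hg
  unfold gam
  push_cast
  have e1 : ((h' : ℝ) + 1) ≠ 0 := by linarith
  have e2 : (g : ℝ) ≠ 0 := by linarith
  have e3 : ((h' : ℝ) + 1) * g - 1 ≠ 0 := by nlinarith
  field_simp
  ring

theorem main (g h : ℕ) (hh : 2 ≤ h) (hg : h ≤ g) :
    ∃ A : Set ℤ,
      A ⊆ {n : ℤ | 1 ≤ n} ∧ A.Infinite ∧
      (∀ X : Finset ℤ, X.card = h → ∀ k : Fin g → ℤ, Function.Injective k →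
        ¬ (∀ i : Fin g, ∀ x ∈ X, x + k i ∈ A)) ∧
      ∀ ε : ℝ, 0 < ε →
        ∀ᶠ n : ℕ in Filter.atTop,
          (n : ℝ) ^ ((1 - 1 / (h : ℝ)) * (1 - 1 / (g : ℝ)) *
              (1 + 1 / ((h : ℝ) * (g : ℝ) - 1)) - ε)
            ≤ ((A ∩ Set.Icc (1 : ℤ) (n : ℤ)).ncard : ℝ) := by
  classical
  obtain ⟨h', rfl⟩ : ∃ h', h = h' + 1 := ⟨h - 1, by omega⟩
  have hh' : 1 ≤ h' := by omega
  have hg' : 2 ≤ g := by omega
  obtain ⟨j0, A, hA1, hA2, hA3⟩ := exists_set hh' hg'
  rw [alpha_eq hh' hg']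
  set α := 1 - gam h' g with hα
  have hα0 : 0 < α := by have := gam_lt_one hh' hg'; linarith
  -- the counting estimate
  have hcount : ∀ ε : ℝ, 0 < ε →
        ∀ᶠ n : ℕ in Filter.atTop,
          (n : ℝ) ^ (α - ε)
            ≤ ((((fun y : ℕ => (y : ℤ)) '' A) ∩ Set.Icc (1 : ℤ) (n : ℤ)).ncard : ℝ) := by
    -- it suffices to treat `ε ≤ α`
    have hmain : ∀ ε : ℝ, 0 < ε → ε ≤ α →
        ∀ᶠ n : ℕ in Filter.atTop,
          (n : ℝ) ^ (α - ε)
            ≤ ((((fun y : ℕ => (y : ℤ)) '' A) ∩ Set.Icc (1 : ℤ) (n : ℤ)).ncard : ℝ) := by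
      intro ε hε hεα
      have hlim : Filter.Tendsto (fun J : ℕ => Real.log 4 * ε * J - 10 * √(J : ℝ))
          Filter.atTop Filter.atTop := by
        have hη : 0 < Real.log 4 * ε := mul_pos log4_pos hε
        have : (fun J : ℕ => Real.log 4 * ε * J - 10 * √(J : ℝ)) =
            (fun J : ℕ => √(J : ℝ) * (Real.log 4 * ε * √(J : ℝ) - 10)) := by
          ext J
          have := Real.mul_self_sqrt (show (0 : ℝ) ≤ J by positivity)
          nlinarith
        rw [this]
        have hs : Filter.Tendsto (fun J : ℕ => √(J : ℝ)) Filter.atTop Filter.atTop :=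
          Real.tendsto_sqrt_atTop.comp tendsto_natCast_atTop_atTop
        apply Filter.Tendsto.atTop_mul_atTop₀ hs
        apply Filter.tendsto_atTop_add_const_right
        exact Filter.Tendsto.const_mul_atTop hη hs
      obtain ⟨j1, hj1⟩ := Filter.eventually_atTop.1
        (hlim.eventually_ge_atTop (Real.log 16 + 2 * Real.log 4 * (α - ε)))
      filter_upwards [Filter.eventually_ge_atTop (4 ^ (max j0 j1 + 2))] with n hn
      have hn0 : n ≠ 0 := by
        have : 0 < 4 ^ (max j0 j1 + 2) := by positivity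
        omega
      obtain ⟨J, hJ⟩ : ∃ J, Nat.log 4 n = J + 1 := by
        have : max j0 j1 + 2 ≤ Nat.log 4 n := Nat.le_log_of_pow_le (by norm_num) hn
        exact ⟨Nat.log 4 n - 1, by omega⟩
      have hJ2 : max j0 j1 ≤ J := by
        have : max j0 j1 + 2 ≤ Nat.log 4 n := Nat.le_log_of_pow_le (by norm_num) hn
        omega
      obtain ⟨F, hF1, hF2⟩ := hA3 J (by omega)
      have hnlow : 4 ^ (J + 1) ≤ n := by rw [← hJ]; exact Nat.pow_log_le_self 4 hn0
      have hnup : n < 4 ^ (J + 2) := by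
        have := Nat.lt_pow_succ_log_self (by norm_num : 1 < 4) n
        rw [hJ] at this
        exact this
      have hcard : F.card ≤ ((((fun y : ℕ => (y : ℤ)) '' A) ∩ Set.Icc (1 : ℤ) (n : ℤ))).ncard := by
        have hfin : ((((fun y : ℕ => (y : ℤ)) '' A) ∩ Set.Icc (1 : ℤ) (n : ℤ))).Finite :=
          (Set.finite_Icc _ _).subset Set.inter_subset_right
        have hsub : ((F.image (fun y : ℕ => (y : ℤ)) : Finset ℤ) : Set ℤ) ⊆
            (((fun y : ℕ => (y : ℤ)) '' A) ∩ Set.Icc (1 : ℤ) (n : ℤ)) := by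
          intro z hz
          rw [Finset.mem_coe, Finset.mem_image] at hz
          obtain ⟨y, hy, rfl⟩ := hz
          have := hF1 y hy
          refine ⟨⟨y, this.1, rfl⟩, ?_, ?_⟩
          · exact_mod_cast hA1 y this.1
          · exact_mod_cast (this.2.trans_le hnlow).le
        have h1 := Set.ncard_le_ncard hsub hfin
        rw [Set.ncard_coe_finset, Finset.card_image_of_injective _ Nat.cast_injective] at h1
        exact h1
      have hcard' : (F.card : ℝ) ≤
          ((((fun y : ℕ => (y : ℤ)) '' A) ∩ Set.Icc (1 : ℤ) (n : ℤ)).ncard : ℝ) := by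
        exact_mod_cast hcard
      refine le_trans ?_ hcard'
      refine le_trans ?_ hF2
      have hnr : (n : ℝ) ≤ (4 : ℝ) ^ (J + 2) := by exact_mod_cast hnup.le
      have e4 : (4 : ℝ) ^ (J + 2) = Real.exp (Real.log 4 * (J + 2)) := by
        rw [mul_comm]
        have := Real.exp_nat_mul (Real.log 4) (J + 2)
        push_cast at this
        rw [this, Real.exp_log (by norm_num)]
      have h16 : (1 / 16 : ℝ) = Real.exp (-Real.log 16) := by
        rw [Real.exp_neg, Real.exp_log (by norm_num)]; norm_num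
      calc (n : ℝ) ^ (α - ε) ≤ ((4 : ℝ) ^ (J + 2)) ^ (α - ε) := by
            apply Real.rpow_le_rpow (by positivity) hnr (by linarith)
        _ = Real.exp (Real.log 4 * (J + 2) * (α - ε)) := by
            rw [e4, ← Real.exp_mul]
        _ ≤ Real.exp (-Real.log 16 + (Real.log 4 * α * J - 10 * √(J : ℝ))) := by
            apply Real.exp_le_exp.2
            have := hj1 J (by omega)
            nlinarith
        _ = _ := by rw [Real.exp_add, ← h16]
    intro ε hε
    rcases le_or_gt ε α with h | h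
    · exact hmain ε hε h
    · filter_upwards [hmain α hα0 le_rfl, Filter.eventually_ge_atTop 1] with n hn hn1
      refine le_trans ?_ hn
      apply Real.rpow_le_rpow_of_exponent_le
      · exact_mod_cast hn1
      · linarith
  refine ⟨(fun y : ℕ => (y : ℤ)) '' A, ?_, ?_, ?_, hcount⟩
  · rintro z ⟨y, hy, rfl⟩
    have h1 : (1 : ℤ) ≤ (y : ℤ) := by exact_mod_cast hA1 y hy
    exact h1
  · -- infinite
    intro hfin
    have h1 := hcount (α / 2) (by linarith)
    have h2 : Filter.Tendsto (fun n : ℕ => (n : ℝ) ^ (α - α / 2)) Filter.atTop Filter.atTop :=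
      (tendsto_rpow_atTop (by linarith)).comp tendsto_natCast_atTop_atTop
    have h3 := h2.eventually_gt_atTop (((fun y : ℕ => (y : ℤ)) '' A).ncard : ℝ)
    obtain ⟨n, hn1, hn2⟩ := (h1.and h3).exists
    have h4 : ((((fun y : ℕ => (y : ℤ)) '' A) ∩ Set.Icc (1 : ℤ) (n : ℤ)).ncard : ℝ) ≤
        (((fun y : ℕ => (y : ℤ)) '' A).ncard : ℝ) := by
      exact_mod_cast Set.ncard_le_ncard Set.inter_subset_left hfin
    linarith
  · -- no configuration
    intro X hX k hk hall
    have hXne : X.Nonempty := by rw [← Finset.card_pos, hX]; omega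
    set x0 := X.min' hXne with hx0
    have hx0X : x0 ∈ X := Finset.min'_mem X hXne
    have hX' : (X.erase x0).card = h' := by rw [Finset.card_erase_of_mem hx0X, hX]; omega
    let e : Fin h' ≃ (X.erase x0) := (Finset.equivFinOfCardEq hX').symm
    have heX : ∀ i, ((e i : ℤ)) ∈ X := fun i => Finset.mem_of_mem_erase (e i).2
    have he0 : ∀ i, x0 < (e i : ℤ) := fun i =>
      lt_of_le_of_ne (Finset.min'_le X _ (heX i)) (Finset.ne_of_mem_erase (e i).2).symm
    have hpos : ∀ j, 1 ≤ x0 + k j := by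
      intro j
      obtain ⟨y, hy, hy2⟩ := hall j x0 hx0X
      have h1 : (1 : ℤ) ≤ (y : ℤ) := by exact_mod_cast hA1 y hy
      simp only at hy2
      omega
    let c : Kap h' g := (fun i => ((e i : ℤ) - x0).toNat, fun j => (x0 + k j).toNat)
    apply hA2 c
    · intro i i' hii
      simp only [c] at hii
      have h1 := he0 i
      have h2 := he0 i'
      have h3 : (e i : ℤ) = e i' := by omega
      exact e.injective (Subtype.ext h3)
    · intro i
      simp only [c]
      have h1 := he0 i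
      omega
    · intro j j' hjj
      simp only [c] at hjj
      have h1 := hpos j
      have h2 := hpos j'
      exact hk (by omega)
    · rintro ⟨o, j⟩
      have hcast : ∀ y : ℕ, ((y : ℕ) : ℤ) ∈ (fun y : ℕ => (y : ℤ)) '' A → y ∈ A := by
        rintro y ⟨z, hz, hzy⟩
        simp only at hzy
        have : z = y := by exact_mod_cast hzy
        rw [← this]; exact hz
      apply hcast
      have h1 := hpos j
      cases o with
      | none =>
        have : ((sm c (none, j) : ℕ) : ℤ) = x0 + k j := by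
          simp only [sm, c, Option.elim]
          omega
        rw [this]
        exact hall j x0 hx0X
      | some i =>
        have h2 := he0 i
        have : ((sm c (some i, j) : ℕ) : ℤ) = (e i : ℤ) + k j := by
          simp only [sm, c, Option.elim]
          omega
        rw [this]
        exact hall j _ (heX i)

end Pool.Agent.V8H1.ChG
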