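import Mathlib

set_option autoImplicit false
open Finset Real

namespace Pool.Agent.V8H1.ChG

noncomputable def gam (h' g : ℕ) : ℝ := ((h' : ℝ) + g - 1) / (((h' : ℝ) + 1) * g - 1)

noncomputable def W (h' g J : ℕ) : ℝ := Real.exp (-(gam h' g * Real.log 4 * J + 5 * √(J : ℝ)))

noncomputable def wt (h' g y : ℕ) : ℝ := W h' g (Nat.log 4 y)

lemma log4_pos : 0 < Real.log 4 := Real.log_pos (by norm_num)

lemma gam_pos {h' g : ℕ} (hh : 1 ≤ h') (hg : 2 ≤ g) : 0 < gam h' g := by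
  have h1 : (1 : ℝ) ≤ h' := by exact_mod_cast hh
  have h2 : (2 : ℝ) ≤ g := by exact_mod_cast hg
  unfold gam
  apply div_pos
  · linarith
  · nlinarith

lemma gam_mul {h' g : ℕ} (hh : 1 ≤ h') (hg : 2 ≤ g) :
    gam h' g * (((h' : ℝ) + 1) * g - 1) = (h' : ℝ) + g - 1 := by
  have h1 : (1 : ℝ) ≤ h' := by exact_mod_cast hh
  have h2 : (2 : ℝ) ≤ g := by exact_mod_cast hg
  unfold gam
  rw [div_mul_cancel₀]
  nlinarith

lemma gam_lt_one {h' g : ℕ} (hh : 1 ≤ h') (hg : 2 ≤ g) : gam h' g < 1 := by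
  have h1 : (1 : ℝ) ≤ h' := by exact_mod_cast hh
  have h2 : (2 : ℝ) ≤ g := by exact_mod_cast hg
  unfold gam
  rw [div_lt_one] <;> nlinarith

/-- `γ b < 1`. -/
lemma gam_b_lt {h' g : ℕ} (hh : 1 ≤ h') (hg : 2 ≤ g) :
    gam h' g * ((g : ℝ) * (h' + 1) / (h' + g)) < 1 := by
  have h1 : (1 : ℝ) ≤ h' := by exact_mod_cast hh
  have h2 : (2 : ℝ) ≤ g := by exact_mod_cast hg
  have h3 := gam_mul hh hg
  have h4 := gam_lt_one hh hg
  have : gam h' g * ((g : ℝ) * (h' + 1) / (h' + g)) = (gam h' g * ((g : ℝ) * (h' + 1))) / (h' + g) := by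
    ring
  rw [this, div_lt_one (by linarith)]
  nlinarith

lemma W_pos (h' g J : ℕ) : 0 < W h' g J := Real.exp_pos _

lemma wt_pos (h' g y : ℕ) : 0 < wt h' g y := W_pos _ _ _

lemma W_antitone {h' g : ℕ} (hh : 1 ≤ h') (hg : 2 ≤ g) : Antitone (W h' g) := by
  intro a b hab
  unfold W
  apply Real.exp_le_exp.2
  have h1 : (a : ℝ) ≤ b := by exact_mod_cast hab
  have h2 := gam_pos hh hg
  have h3 := log4_pos
  have h4 : √(a : ℝ) ≤ √(b : ℝ) := Real.sqrt_le_sqrt h1
  have h5 : gam h' g * Real.log 4 * a ≤ gam h' g * Real.log 4 * b :=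
    mul_le_mul_of_nonneg_left h1 (by positivity)
  linarith

lemma wt_antitone {h' g : ℕ} (hh : 1 ≤ h') (hg : 2 ≤ g) : Antitone (wt h' g) := by
  intro a b hab
  exact W_antitone hh hg (Nat.log_mono_right hab)

lemma sum_blocks (F : ℕ → ℝ) (J : ℕ) :
    ∑ y ∈ Finset.Ico 1 (4 ^ (J + 1)), F (Nat.log 4 y) = ∑ j ∈ Finset.range (J + 1), 3 * 4 ^ j * F j := by
  have hblock : ∀ j : ℕ, ∑ y ∈ Finset.Ico (4 ^ j) (4 ^ (j + 1)), F (Nat.log 4 y) =
      3 * 4 ^ j * F j := by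
    intro j
    have : ∀ y ∈ Finset.Ico (4 ^ j) (4 ^ (j + 1)), F (Nat.log 4 y) = F j := by
      intro y hy
      rw [Finset.mem_Ico] at hy
      rw [Nat.log_eq_of_pow_le_of_lt_pow hy.1 hy.2]
    rw [Finset.sum_congr rfl this, Finset.sum_const, Nat.card_Ico, nsmul_eq_mul]
    congr 1
    rw [Nat.cast_sub (Nat.pow_le_pow_right (by norm_num) (Nat.le_add_right j 1))]
    push_cast
    ring
  induction J with
  | zero => simpa using hblock 0
  | succ J ih =>
    rw [← Finset.sum_Ico_consecutive _ (Nat.one_le_pow _ _ (by norm_num))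
      (Nat.pow_le_pow_right (by norm_num) (Nat.le_succ (J + 1))), ih, hblock,
      Finset.sum_range_succ _ (J + 1)]

lemma sqrt_diff (η B : ℝ) (hη : 0 < η) (hB : 0 ≤ B) (j J : ℕ) (hj : j ≤ J) :
    B * (√(J : ℝ) - √(j : ℝ)) ≤ η / 2 * ((J : ℝ) - j) + B ^ 2 / (2 * η) := by
  have hjJ : (j : ℝ) ≤ J := by exact_mod_cast hj
  have h1 : √(J : ℝ) ≤ √(j : ℝ) + √((J : ℝ) - j) := by
    apply Real.sqrt_le_iff.2
    constructor
    · positivity
    · have e1 : √(j : ℝ) ^ 2 = j := Real.sq_sqrt (by positivity)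
      have e2 : √((J : ℝ) - j) ^ 2 = (J : ℝ) - j := Real.sq_sqrt (by linarith)
      nlinarith [Real.sqrt_nonneg (j : ℝ), Real.sqrt_nonneg ((J : ℝ) - j),
        mul_nonneg (Real.sqrt_nonneg (j : ℝ)) (Real.sqrt_nonneg ((J : ℝ) - j))]
  set t := √((J : ℝ) - j) with ht
  have e2 : t ^ 2 = (J : ℝ) - j := Real.sq_sqrt (by linarith)
  have h2 : B * t ≤ η / 2 * t ^ 2 + B ^ 2 / (2 * η) := by
    have : 0 ≤ (η * t - B) ^ 2 / (2 * η) := by positivity
    have e : (η * t - B) ^ 2 / (2 * η) = η / 2 * t ^ 2 - B * t + B ^ 2 / (2 * η) := by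
      field_simp
      ring
    linarith
  calc B * (√(J : ℝ) - √(j : ℝ)) ≤ B * t := mul_le_mul_of_nonneg_left (by linarith) hB
    _ ≤ _ := by rw [← e2]; exact h2

lemma geom_dom (η B : ℝ) (hη : 0 < η) (hB : 0 ≤ B) :
    ∃ C : ℝ, 0 < C ∧ ∀ J : ℕ, ∑ j ∈ Finset.range (J + 1), Real.exp (η * j - B * √(j : ℝ)) ≤
      C * Real.exp (η * J - B * √(J : ℝ)) := by
  have hr : Real.exp (-(η / 2)) < 1 := by
    rw [Real.exp_lt_one_iff]; linarith
  have hr0 : 0 ≤ Real.exp (-(η / 2)) := (Real.exp_pos _).le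
  refine ⟨Real.exp (B ^ 2 / (2 * η)) * (1 - Real.exp (-(η / 2)))⁻¹, ?_, ?_⟩
  · apply mul_pos (Real.exp_pos _)
    rw [inv_pos]; linarith
  intro J
  have hterm : ∀ j ∈ Finset.range (J + 1), Real.exp (η * j - B * √(j : ℝ)) ≤
      Real.exp (η * J - B * √(J : ℝ)) * Real.exp (B ^ 2 / (2 * η)) *
        (Real.exp (-(η / 2))) ^ (J - j) := by
    intro j hj
    have hj' : j ≤ J := Nat.lt_succ_iff.1 (Finset.mem_range.1 hj)
    rw [← Real.exp_nat_mul, ← Real.exp_add, ← Real.exp_add]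
    apply Real.exp_le_exp.2
    rw [Nat.cast_sub hj']
    have := sqrt_diff η B hη hB j J hj'
    nlinarith
  calc ∑ j ∈ Finset.range (J + 1), Real.exp (η * j - B * √(j : ℝ))
      ≤ ∑ j ∈ Finset.range (J + 1), Real.exp (η * J - B * √(J : ℝ)) *
        Real.exp (B ^ 2 / (2 * η)) * (Real.exp (-(η / 2))) ^ (J - j) := Finset.sum_le_sum hterm
    _ = Real.exp (η * J - B * √(J : ℝ)) * Real.exp (B ^ 2 / (2 * η)) *
        ∑ j ∈ Finset.range (J + 1), (Real.exp (-(η / 2))) ^ j := by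
        rw [Finset.mul_sum, ← Finset.sum_range_reflect]
        apply Finset.sum_congr rfl
        intro j hj
        have hj' : j ≤ J := Nat.lt_succ_iff.1 (Finset.mem_range.1 hj)
        congr 2
        omega
    _ ≤ Real.exp (η * J - B * √(J : ℝ)) * Real.exp (B ^ 2 / (2 * η)) *
        (1 - Real.exp (-(η / 2)))⁻¹ := by
        apply mul_le_mul_of_nonneg_left
        · rw [← tsum_geometric_of_lt_one hr0 hr]
          exact Summable.sum_le_tsum _ (fun i _ => pow_nonneg hr0 i)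
            (summable_geometric_of_lt_one hr0 hr)
        · positivity
    _ = _ := by ring

/-- The bound for the expected number of the configurations. -/
lemma E_bound {h' g : ℕ} (hh : 1 ≤ h') (hg : 2 ≤ g) :
    ∃ C : ℝ, 0 < C ∧ ∀ J : ℕ,
      (∑ y ∈ Finset.Ico 1 (4 ^ (J + 1)), (wt h' g y) ^ ((g : ℝ) * (h' + 1) / (h' + g))) ^ (h' + g)
        ≤ C * Real.exp (Real.log 4 * (1 - gam h' g) * J - 5 * (g * (h' + 1)) * √(J : ℝ)) := by
  set b : ℝ := (g : ℝ) * (h' + 1) / (h' + g) with hb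
  have h1 : (1 : ℝ) ≤ h' := by exact_mod_cast hh
  have h2 : (2 : ℝ) ≤ g := by exact_mod_cast hg
  have hb0 : 0 < b := by positivity
  have hη : 0 < Real.log 4 * (1 - gam h' g * b) :=
    mul_pos log4_pos (by have := gam_b_lt hh hg; linarith)
  obtain ⟨C, hC, hC2⟩ := geom_dom (Real.log 4 * (1 - gam h' g * b)) (5 * b) hη (by positivity)
  refine ⟨(3 * C) ^ (h' + g), by positivity, ?_⟩
  intro J
  have e1 : ∑ y ∈ Finset.Ico 1 (4 ^ (J + 1)), (wt h' g y) ^ b =
      3 * ∑ j ∈ Finset.range (J + 1),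
        Real.exp (Real.log 4 * (1 - gam h' g * b) * j - 5 * b * √(j : ℝ)) := by
    have := sum_blocks (fun j => (W h' g j) ^ b) J
    unfold wt
    rw [this, Finset.mul_sum]
    apply Finset.sum_congr rfl
    intro j _
    rw [mul_assoc]
    congr 1
    have e4 : (4 : ℝ) ^ j = Real.exp (Real.log 4 * j) := by
      rw [mul_comm, Real.exp_nat_mul, Real.exp_log (by norm_num)]
    rw [e4]
    unfold W
    rw [← Real.exp_mul, ← Real.exp_add]
    congr 1
    ring
  rw [e1]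
  calc (3 * ∑ j ∈ Finset.range (J + 1),
        Real.exp (Real.log 4 * (1 - gam h' g * b) * j - 5 * b * √(j : ℝ))) ^ (h' + g)
      ≤ (3 * (C * Real.exp (Real.log 4 * (1 - gam h' g * b) * J - 5 * b * √(J : ℝ)))) ^ (h' + g) := by
        gcongr
        exact hC2 J
    _ = (3 * C) ^ (h' + g) *
        Real.exp (((h' + g : ℕ) : ℝ) * (Real.log 4 * (1 - gam h' g * b) * J - 5 * b * √(J : ℝ))) := by
        rw [Real.exp_nat_mul]; ring
    _ = _ := by
        congr 2
        have hs : (h' : ℝ) + g ≠ 0 := by linarith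
        have hbm : ((h' : ℝ) + g) * b = g * (h' + 1) := by
          rw [hb]; field_simp
        have h3 := gam_mul hh hg
        push_cast
        have : ((h' : ℝ) + g) * (Real.log 4 * (1 - gam h' g * b) * J - 5 * b * √(J : ℝ)) =
          Real.log 4 * ((h' + g) - gam h' g * (((h' : ℝ) + g) * b)) * J -
            5 * (((h' : ℝ) + g) * b) * √(J : ℝ) := by ring
        rw [this, hbm]
        congr 3
        nlinarith

noncomputable def qJ (h' g J : ℕ) : ℕ := ⌈Real.exp (gam h' g * Real.log 4 * J + 5 * √(J : ℝ))⌉₊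

noncomputable def nJ (h' g J : ℕ) : ℕ := rothNumberNat (4 ^ J / 2) / qJ h' g J

lemma qJ_pos (h' g J : ℕ) : 0 < qJ h' g J := by
  unfold qJ
  rw [Nat.ceil_pos]
  exact Real.exp_pos _

lemma W_ge (h' g J : ℕ) : ((qJ h' g J : ℕ) : ℝ)⁻¹ ≤ W h' g J := by
  unfold W
  rw [Real.exp_neg]
  apply inv_anti₀ (Real.exp_pos _)
  exact Nat.le_ceil _

lemma qJ_le {h' g : ℕ} (hh : 1 ≤ h') (hg : 2 ≤ g) (J : ℕ) :
    (qJ h' g J : ℝ) ≤ 2 * Real.exp (gam h' g * Real.log 4 * J + 5 * √(J : ℝ)) := by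
  have h1 : 1 ≤ Real.exp (gam h' g * Real.log 4 * J + 5 * √(J : ℝ)) := by
    apply Real.one_le_exp
    have := gam_pos hh hg
    have := log4_pos
    positivity
  have := Nat.ceil_lt_add_one (Real.exp_pos (gam h' g * Real.log 4 * J + 5 * √(J : ℝ))).le
  unfold qJ
  linarith

lemma log4_le : Real.log 4 ≤ 25 / 16 := by
  have : Real.log 4 = 2 * Real.log 2 := by
    rw [show (4 : ℝ) = 2 ^ 2 by norm_num, Real.log_pow]; norm_num
  rw [this]
  have := Real.log_two_lt_d9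
  linarith

lemma roth_ge (J : ℕ) (hJ : 1 ≤ J) :
    (1 / 2) * Real.exp (Real.log 4 * J - 5 * √(J : ℝ)) ≤ rothNumberNat (4 ^ J / 2) := by
  have h := Behrend.roth_lower_bound (N := 4 ^ J / 2)
  refine le_trans ?_ h
  have e : ((4 ^ J / 2 : ℕ) : ℝ) = 4 ^ J / 2 := by
    rw [Nat.cast_div]
    · norm_num
    · obtain ⟨k, rfl⟩ : ∃ k, J = k + 1 := ⟨J - 1, by omega⟩
      rw [pow_succ]
      exact Dvd.dvd.mul_left (by norm_num) _
    · norm_num
  rw [e]
  have e4 : (4 : ℝ) ^ J = Real.exp (Real.log 4 * J) := by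
    rw [mul_comm, Real.exp_nat_mul, Real.exp_log (by norm_num)]
  have hlog : Real.log ((4 : ℝ) ^ J / 2) ≤ Real.log 4 * J := by
    rw [Real.log_div (by positivity) (by norm_num), Real.log_pow]
    have := Real.log_pos (show (1 : ℝ) < 2 by norm_num)
    linarith
  have hsq : √(Real.log ((4 : ℝ) ^ J / 2)) ≤ 5 / 4 * √(J : ℝ) := by
    calc √(Real.log ((4 : ℝ) ^ J / 2)) ≤ √(25 / 16 * (J : ℝ)) := by
          apply Real.sqrt_le_sqrt
          have := log4_le
          have hJ0 : (0 : ℝ) ≤ J := by positivity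
          nlinarith
      _ = _ := by
          rw [Real.sqrt_mul (by norm_num)]
          congr 1
          rw [show (25 / 16 : ℝ) = (5 / 4) ^ 2 by norm_num]
          exact Real.sqrt_sq (by norm_num)
  calc (1 / 2) * Real.exp (Real.log 4 * J - 5 * √(J : ℝ))
      = (4 : ℝ) ^ J / 2 * Real.exp (-5 * √(J : ℝ)) := by
        rw [e4, sub_eq_add_neg, Real.exp_add]
        ring_nf
    _ ≤ _ := by
        apply mul_le_mul_of_nonneg_left _ (by positivity)
        apply Real.exp_le_exp.2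
        linarith

lemma nJ_ge {h' g : ℕ} (hh : 1 ≤ h') (hg : 2 ≤ g) (J : ℕ) (hJ : 1 ≤ J)
    (hbig : 2 ≤ (1 / 4) * Real.exp (Real.log 4 * (1 - gam h' g) * J - 10 * √(J : ℝ))) :
    (1 / 8) * Real.exp (Real.log 4 * (1 - gam h' g) * J - 10 * √(J : ℝ)) ≤ nJ h' g J := by
  set x := (1 / 4) * Real.exp (Real.log 4 * (1 - gam h' g) * J - 10 * √(J : ℝ)) with hx
  have hm := roth_ge J hJ
  have hq := qJ_le hh hg J
  have hqpos : (0 : ℝ) < qJ h' g J := by exact_mod_cast qJ_pos h' g J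
  have h1 : x * qJ h' g J ≤ rothNumberNat (4 ^ J / 2) := by
    calc x * qJ h' g J ≤ x * (2 * Real.exp (gam h' g * Real.log 4 * J + 5 * √(J : ℝ))) := by
          gcongr
      _ = (1 / 2) * Real.exp (Real.log 4 * J - 5 * √(J : ℝ)) := by
          rw [hx]
          have : Real.exp (Real.log 4 * J - 5 * √(J : ℝ)) =
            Real.exp (Real.log 4 * (1 - gam h' g) * J - 10 * √(J : ℝ)) *
              Real.exp (gam h' g * Real.log 4 * J + 5 * √(J : ℝ)) := by
            rw [← Real.exp_add]; congr 1; ring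
          rw [this]; ring
      _ ≤ _ := hm
  have h2 : rothNumberNat (4 ^ J / 2) < (nJ h' g J + 1) * qJ h' g J := by
    unfold nJ
    rw [mul_comm]
    exact Nat.lt_mul_div_succ _ (qJ_pos h' g J)
  have h3 : (rothNumberNat (4 ^ J / 2) : ℝ) < ((nJ h' g J : ℝ) + 1) * qJ h' g J := by
    exact_mod_cast h2
  have h4 : x < (nJ h' g J : ℝ) + 1 := by
    by_contra hcon
    push Not at hcon
    have := mul_le_mul_of_nonneg_right hcon hqpos.le
    linarith
  have : (1 / 8) * Real.exp (Real.log 4 * (1 - gam h' g) * J - 10 * √(J : ℝ)) = x / 2 := by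
    rw [hx]; ring
  rw [this]
  linarith

end Pool.Agent.V8H1.ChG
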