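import Mathlib

set_option autoImplicit false
open Finset

namespace Pool.Agent.V8H1.ChG

/-- The configurations: `x ∈ {0, u_1, …, u_{h'}}` and the shifts `k_1, …, k_g`. -/
abbrev Kap (h' g : ℕ) : Type := (Fin h' → ℕ) × (Fin g → ℕ)

/-- The sums of a configuration. -/
def sm {h' g : ℕ} (c : Kap h' g) (p : Option (Fin h') × Fin g) : ℕ := p.1.elim 0 c.1 + c.2 p.2

/-- The set of the sums of a configuration. -/
def Yc {h' g : ℕ} (c : Kap h' g) : Finset ℕ := Finset.univ.image (sm c)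

/-- The configurations with all parameters in `[1, 4 ^ (J + 1))` and distinct sums. -/
noncomputable def CJ (h' g : ℕ) (J : ℕ) : Finset (Kap h' g) := by
  classical
  exact ((Fintype.piFinset (fun _ : Fin h' => Finset.Ico 1 (4 ^ (J + 1)))) ×ˢ
    (Fintype.piFinset (fun _ : Fin g => Finset.Ico 1 (4 ^ (J + 1))))).filter
      (fun c => Function.Injective (sm c))

lemma prod_Yc {h' g : ℕ} (c : Kap h' g) (hc : Function.Injective (sm c)) (w : ℕ → ℝ) :
    ∏ y ∈ Yc c, w y = (∏ j, w (c.2 j)) * ∏ i, ∏ j, w (c.1 i + c.2 j) := by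
  unfold Yc
  rw [Finset.prod_image (fun a _ b _ hab => hc hab)]
  rw [Fintype.prod_prod_type, Fintype.prod_option]
  simp [sm]

lemma config_bound {h' g : ℕ} (hg : 1 ≤ g) (w : ℕ → ℝ) (hw0 : ∀ y, 0 < w y) (hw : Antitone w)
    (u : Fin h' → ℕ) (k : Fin g → ℕ) :
    (∏ j, w (k j)) * ∏ i, ∏ j, w (u i + k j) ≤
      (∏ i, (w (u i)) ^ ((g : ℝ) * (h' + 1) / (h' + g))) *
        ∏ j, (w (k j)) ^ ((g : ℝ) * (h' + 1) / (h' + g)) := by
  set θ : ℝ := ((h' : ℝ) + 1) / (h' + g) with hθ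
  have hg' : (1 : ℝ) ≤ g := by exact_mod_cast hg
  have hh' : (0 : ℝ) ≤ h' := by positivity
  have hpos : (0 : ℝ) < h' + g := by positivity
  have hθ0 : 0 ≤ θ := by positivity
  have hθ1 : θ ≤ 1 := by
    rw [hθ, div_le_one hpos]; linarith
  have key : ∀ i j, w (u i + k j) ≤ (w (u i)) ^ θ * (w (k j)) ^ (1 - θ) := by
    intro i j
    have h1 : w (u i + k j) ≤ w (u i) := hw (Nat.le_add_right _ _)
    have h2 : w (u i + k j) ≤ w (k j) := hw (Nat.le_add_left _ _)
    calc w (u i + k j) = (w (u i + k j)) ^ θ * (w (u i + k j)) ^ (1 - θ) := by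
          rw [← Real.rpow_add (hw0 _)]; simp
      _ ≤ (w (u i)) ^ θ * (w (k j)) ^ (1 - θ) := by
          apply mul_le_mul
          · exact Real.rpow_le_rpow (hw0 _).le h1 hθ0
          · exact Real.rpow_le_rpow (hw0 _).le h2 (by linarith)
          · exact (Real.rpow_pos_of_pos (hw0 _) _).le
          · exact (Real.rpow_pos_of_pos (hw0 _) _).le
  have h2 : ∏ i, ∏ j, w (u i + k j) ≤ ∏ i, ∏ j, ((w (u i)) ^ θ * (w (k j)) ^ (1 - θ)) := by
    apply Finset.prod_le_prod
    · intro i _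
      exact Finset.prod_nonneg (fun j _ => (hw0 _).le)
    · intro i _
      exact Finset.prod_le_prod (fun j _ => (hw0 _).le) (fun j _ => key i j)
  have h3 : ∏ i, ∏ j, ((w (u i)) ^ θ * (w (k j)) ^ (1 - θ)) =
      (∏ i, (w (u i)) ^ ((g : ℝ) * (h' + 1) / (h' + g))) *
        ∏ j, ((w (k j)) ^ (1 - θ)) ^ h' := by
    simp_rw [Finset.prod_mul_distrib]
    congr 1
    · apply Finset.prod_congr rfl
      intro i _
      rw [Finset.prod_const, Finset.card_univ, Fintype.card_fin, ← Real.rpow_natCast,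
        ← Real.rpow_mul (hw0 _).le]
      congr 1
      rw [hθ]; ring
    · rw [Finset.prod_const, Finset.card_univ, Fintype.card_fin, Finset.prod_pow]
  calc (∏ j, w (k j)) * ∏ i, ∏ j, w (u i + k j) ≤
      (∏ j, w (k j)) * ((∏ i, (w (u i)) ^ ((g : ℝ) * (h' + 1) / (h' + g))) *
        ∏ j, ((w (k j)) ^ (1 - θ)) ^ h') := by
        rw [← h3]
        exact mul_le_mul_of_nonneg_left h2 (Finset.prod_nonneg (fun j _ => (hw0 _).le))
    _ = (∏ i, (w (u i)) ^ ((g : ℝ) * (h' + 1) / (h' + g))) *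
        ∏ j, (w (k j) * ((w (k j)) ^ (1 - θ)) ^ h') := by
        rw [Finset.prod_mul_distrib]; ring
    _ = _ := by
        congr 1
        apply Finset.prod_congr rfl
        intro j _
        rw [← Real.rpow_natCast, ← Real.rpow_mul (hw0 _).le]
        nth_rw 1 [← Real.rpow_one (w (k j))]
        rw [← Real.rpow_add (hw0 _)]
        congr 1
        rw [hθ]
        field_simp
        ring

lemma sum_CJ_le {h' g : ℕ} (hg : 1 ≤ g) (w : ℕ → ℝ) (hw0 : ∀ y, 0 < w y) (hw : Antitone w)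
    (J : ℕ) :
    ∑ c ∈ CJ h' g J, ∏ y ∈ Yc c, w y ≤
      (∑ y ∈ Finset.Ico 1 (4 ^ (J + 1)), (w y) ^ ((g : ℝ) * (h' + 1) / (h' + g))) ^ (h' + g) := by
  classical
  set b : ℝ := (g : ℝ) * (h' + 1) / (h' + g) with hb
  calc ∑ c ∈ CJ h' g J, ∏ y ∈ Yc c, w y
      ≤ ∑ c ∈ CJ h' g J, ((∏ i, (w (c.1 i)) ^ b) * ∏ j, (w (c.2 j)) ^ b) := by
        apply Finset.sum_le_sum
        intro c hc
        unfold CJ at hc
        rw [Finset.mem_filter] at hc
        rw [prod_Yc c hc.2]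
        exact config_bound hg w hw0 hw c.1 c.2
    _ ≤ ∑ c ∈ ((Fintype.piFinset (fun _ : Fin h' => Finset.Ico 1 (4 ^ (J + 1)))) ×ˢ
          (Fintype.piFinset (fun _ : Fin g => Finset.Ico 1 (4 ^ (J + 1))))),
          ((∏ i, (w (c.1 i)) ^ b) * ∏ j, (w (c.2 j)) ^ b) := by
        apply Finset.sum_le_sum_of_subset_of_nonneg
        · unfold CJ
          exact Finset.filter_subset _ _
        · intro c _ _
          apply mul_nonneg <;> exact Finset.prod_nonneg (fun i _ => (Real.rpow_pos_of_pos (hw0 _) _).le)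
    _ = _ := by
        rw [Finset.sum_product]
        simp_rw [← Finset.mul_sum]
        rw [← Finset.sum_mul]
        have e1 := Finset.prod_univ_sum (ι := Fin h') (fun _ => Finset.Ico 1 (4 ^ (J + 1)))
          (fun _ y => (w y) ^ b)
        have e2 := Finset.prod_univ_sum (ι := Fin g) (fun _ => Finset.Ico 1 (4 ^ (J + 1)))
          (fun _ y => (w y) ^ b)
        rw [← e1, ← e2]
        simp [pow_add]

end Pool.Agent.V8H1.ChG
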