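import Pool.Agent.V8H1.ChG.Prob
import Pool.Agent.V8H1.ChG.Config
import Pool.Agent.V8H1.ChG.Analysis

set_option autoImplicit false
open Finset
open scoped ENNReal

namespace Pool.Agent.V8H1.ChG

lemma chunk (n q : ℕ) : ∀ T : Finset ℕ, n * q ≤ T.card → ∃ G : ℕ → Finset ℕ,
    (∀ i < n, G i ⊆ T ∧ (G i).card = q) ∧
      ∀ i < n, ∀ i' < n, i ≠ i' → Disjoint (G i) (G i') := by
  induction n with
  | zero => intro T _; exact ⟨fun _ => ∅, by simp, by simp⟩
  | succ n ih =>
    intro T hT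
    have hq : q ≤ T.card := by nlinarith
    obtain ⟨U, hU, hUc⟩ := Finset.exists_subset_card_eq hq
    have h2 : n * q ≤ (T \ U).card := by
      rw [Finset.card_sdiff_of_subset hU, hUc]
      have : (n + 1) * q = n * q + q := by ring
      omega
    obtain ⟨G, hG1, hG2⟩ := ih (T \ U) h2
    refine ⟨fun i => if i < n then G i else U, ?_, ?_⟩
    · intro i hi
      by_cases h : i < n
      · simp only [h, if_true]
        exact ⟨(hG1 i h).1.trans Finset.sdiff_subset, (hG1 i h).2⟩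
      · simp only [h, if_false]
        exact ⟨hU, hUc⟩
    · intro i hi i' hi' hne
      by_cases h : i < n <;> by_cases h' : i' < n
      · simp only [h, h', if_true]
        exact hG2 i h i' h' hne
      · simp only [h, h', if_true, if_false]
        exact Finset.disjoint_of_subset_left (hG1 i h).1 Finset.sdiff_disjoint
      · simp only [h, h', if_true, if_false]
        exact (Finset.disjoint_of_subset_left (hG1 i' h').1 Finset.sdiff_disjoint).symm
      · omega

lemma exists_T (J : ℕ) : ∃ T : Finset ℕ, (∀ y ∈ T, 4 ^ J ≤ y ∧ 2 * y < 3 * 4 ^ J) ∧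
    T.card = rothNumberNat (4 ^ J / 2) ∧
    (∀ x ∈ T, ∀ y ∈ T, ∀ z ∈ T, x + z = y + y → x = y) := by
  obtain ⟨t, ht, hc, hf⟩ := rothNumberNat_spec (4 ^ J / 2)
  refine ⟨t.image (fun y => 4 ^ J + y), ?_, ?_, ?_⟩
  · intro y hy
    obtain ⟨s, hs, rfl⟩ := Finset.mem_image.1 hy
    have := Finset.mem_range.1 (ht hs)
    omega
  · rw [Finset.card_image_of_injective _ (fun a b hab => by simpa using hab), hc]
  · intro x hx y hy z hz hxyz
    obtain ⟨x', hx', rfl⟩ := Finset.mem_image.1 hx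
    obtain ⟨y', hy', rfl⟩ := Finset.mem_image.1 hy
    obtain ⟨z', hz', rfl⟩ := Finset.mem_image.1 hz
    have := hf (by exact_mod_cast hx') (by exact_mod_cast hy') (by exact_mod_cast hz')
      (by omega : x' + z' = y' + y')
    rw [this]

lemma log_eq_of_mem {J y : ℕ} (h : 4 ^ J ≤ y ∧ 2 * y < 3 * 4 ^ J) : Nat.log 4 y = J := by
  apply Nat.log_eq_of_pow_le_of_lt_pow h.1
  rw [pow_succ]; omega

lemma free_union (T : ℕ → Finset ℕ) (hT : ∀ J, ∀ y ∈ T J, 4 ^ J ≤ y ∧ 2 * y < 3 * 4 ^ J)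
    (hf : ∀ J, ∀ x ∈ T J, ∀ y ∈ T J, ∀ z ∈ T J, x + z = y + y → x = y)
    (x y z : ℕ) (hx : ∃ J, x ∈ T J) (hy : ∃ J, y ∈ T J) (hz : ∃ J, z ∈ T J)
    (h : x + z = y + y) : x = y := by
  have key : ∀ x z : ℕ, (∃ J, x ∈ T J) → (∃ J, z ∈ T J) → x ≤ z → x + z = y + y → x = y := by
    intro x z hx hz hxz h
    obtain ⟨a, ha⟩ := hx
    obtain ⟨b, hb⟩ := hy
    obtain ⟨c, hc⟩ := hz
    have ha' := hT a x ha
    have hb' := hT b y hb
    have hc' := hT c z hc
    have hcb : c = b := by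
      rcases lt_trichotomy b c with hlt | heq | hgt
      · have : 4 ^ (b + 1) ≤ 4 ^ c := Nat.pow_le_pow_right (by norm_num) hlt
        rw [pow_succ] at this
        omega
      · exact heq.symm
      · have : 4 ^ (c + 1) ≤ 4 ^ b := Nat.pow_le_pow_right (by norm_num) hgt
        rw [pow_succ] at this
        omega
    subst hcb
    have hac : a = c := by
      rcases lt_trichotomy a c with hlt | heq | hgt
      · have : 4 ^ (a + 1) ≤ 4 ^ c := Nat.pow_le_pow_right (by norm_num) hlt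
        rw [pow_succ] at this
        omega
      · exact heq
      · have : 4 ^ (c + 1) ≤ 4 ^ a := Nat.pow_le_pow_right (by norm_num) hgt
        rw [pow_succ] at this
        omega
    subst hac
    exact hf a x ha y hb z hc h
  rcases le_total x z with hxz | hxz
  · exact key x z hx hz hxz h
  · have := key z x hz hx hxz (by omega)
    omega

lemma sm_injective {h' g : ℕ} (c : Kap h' g) (hu : Function.Injective c.1) (hu0 : ∀ i, 1 ≤ c.1 i)
    (hk : Function.Injective c.2) (S : Set ℕ)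
    (hS : ∀ x ∈ S, ∀ y ∈ S, ∀ z ∈ S, x + z = y + y → x = y)
    (hc : ∀ p, sm c p ∈ S) : Function.Injective (sm c) := by
  have hinj : Function.Injective (fun o : Option (Fin h') => o.elim 0 c.1) := by
    intro a b hab
    cases a with
    | none =>
      cases b with
      | none => rfl
      | some b => have := hu0 b; simp at hab; omega
    | some a =>
      cases b with
      | none => have := hu0 a; simp at hab; omega
      | some b => simp at hab; rw [hu hab]
  rintro ⟨p, j⟩ ⟨p', j'⟩ h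
  have h1 : sm c (p', j) + sm c (p, j') = sm c (p, j) + sm c (p, j) := by
    have e : sm c (p, j) = sm c (p', j') := h
    have e2 : sm c (p, j) + sm c (p, j) = sm c (p, j) + sm c (p', j') := by rw [← e]
    rw [e2]
    unfold sm
    simp only
    omega
  have h2 := hS _ (hc (p', j)) _ (hc (p, j)) _ (hc (p, j')) h1
  have hp : p' = p := by
    apply hinj
    unfold sm at h2
    simp only at h2 ⊢
    omega
  subst hp
  have hj : j = j' := by
    apply hk
    unfold sm at h
    simp only at h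
    omega
  rw [hj]

lemma summable_exp_sqrt : Summable (fun J : ℕ => Real.exp (-(10 * √(J : ℝ)))) := by
  rw [← summable_nat_add_iff 1]
  have hs : Summable (fun J : ℕ => 1 / (((J + 1 : ℕ) : ℝ)) ^ 2) := by
    rw [summable_nat_add_iff (f := fun J : ℕ => 1 / ((J : ℝ)) ^ 2) 1]
    exact Real.summable_one_div_nat_pow.2 (by norm_num)
  refine Summable.of_nonneg_of_le (fun J => (Real.exp_pos _).le) (fun J => ?_) hs
  rw [Real.exp_neg, one_div]
  apply inv_anti₀ (by positivity)
  have h := Real.pow_div_factorial_le_exp (10 * √((J + 1 : ℕ) : ℝ)) (by positivity) 4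
  refine le_trans ?_ h
  have e : (10 * √((J + 1 : ℕ) : ℝ)) ^ 4 = 10000 * (((J + 1 : ℕ) : ℝ)) ^ 2 := by
    have := Real.sq_sqrt (show (0 : ℝ) ≤ ((J + 1 : ℕ) : ℝ) by positivity)
    calc (10 * √((J + 1 : ℕ) : ℝ)) ^ 4 = 10000 * (√((J + 1 : ℕ) : ℝ) ^ 2) ^ 2 := by ring
      _ = _ := by rw [this]
  rw [e]
  have : (0 : ℝ) ≤ (((J + 1 : ℕ) : ℝ)) ^ 2 := by positivity
  simp only [Nat.factorial]
  push_cast
  push_cast at this
  nlinarith

lemma tail_lt (C : ℝ) (hC : 0 < C) : ∃ j0 : ℕ, ∀ j1 : ℕ, j0 ≤ j1 →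
    ∑' J : ℕ, ENNReal.ofReal (if J < j1 then 0 else C * Real.exp (-(10 * √(J : ℝ)))) < 1 := by
  have hs : Summable (fun J : ℕ => C * Real.exp (-(10 * √(J : ℝ)))) :=
    summable_exp_sqrt.mul_left C
  have ht := tendsto_sum_nat_add (fun J : ℕ => C * Real.exp (-(10 * √(J : ℝ))))
  have he : ∀ᶠ i in Filter.atTop, ∑' k : ℕ, C * Real.exp (-(10 * √((k + i : ℕ) : ℝ))) < 1 :=
    ht.eventually (gt_mem_nhds zero_lt_one)
  obtain ⟨j0, hj0⟩ := Filter.eventually_atTop.1 he
  refine ⟨j0, fun j1 hj1 => ?_⟩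
  have hnn : ∀ J : ℕ, 0 ≤ (if J < j1 then 0 else C * Real.exp (-(10 * √(J : ℝ)))) := by
    intro J
    split_ifs
    · exact le_rfl
    · positivity
  have hs2 : Summable (fun J : ℕ => if J < j1 then 0 else C * Real.exp (-(10 * √(J : ℝ)))) := by
    refine Summable.of_nonneg_of_le hnn (fun J => ?_) hs
    split_ifs
    · positivity
    · exact le_rfl
  rw [← ENNReal.ofReal_tsum_of_nonneg hnn hs2]
  rw [← ENNReal.ofReal_one, ENNReal.ofReal_lt_ofReal_iff zero_lt_one]
  have h3 := hj0 j1 hj1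
  rw [← hs2.sum_add_tsum_nat_add j1]
  have h4 : ∑ i ∈ Finset.range j1, (if i < j1 then 0 else C * Real.exp (-(10 * √(i : ℝ)))) = 0 := by
    apply Finset.sum_eq_zero
    intro i hi
    simp [Finset.mem_range.1 hi]
  rw [h4, zero_add]
  have h5 : ∀ i : ℕ, (if i + j1 < j1 then 0 else C * Real.exp (-(10 * √((i + j1 : ℕ) : ℝ)))) =
      C * Real.exp (-(10 * √((i + j1 : ℕ) : ℝ))) := by
    intro i
    rw [if_neg (by omega)]
  simp_rw [h5]
  exact h3

end Pool.Agent.V8H1.ChG
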