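import Mathlib

set_option autoImplicit false
open MeasureTheory Finset
open scoped ENNReal

namespace Pool.Agent.V8H1.ChG

variable {ι : Type} (G : ι → Finset ℕ)

/-- The set of the elements chosen by `ω`. -/
def Sel (ω : ι → ℕ) : Set ℕ := {y | ∃ i, y ∈ G i ∧ ω i = y}

noncomputable def mu (hne : ∀ i, (G i).Nonempty) : Measure (ι → ℕ) :=
  Measure.infinitePi (fun i => (PMF.uniformOfFinset (G i) (hne i)).toMeasure)

instance (hne : ∀ i, (G i).Nonempty) : IsProbabilityMeasure (mu G hne) := by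
  unfold mu; infer_instance

lemma measurableSet_sel (hdisj : ∀ i j y, y ∈ G i → y ∈ G j → i = j) (y : ℕ) :
    MeasurableSet {ω : ι → ℕ | y ∈ Sel G ω} := by
  by_cases h : ∃ i, y ∈ G i
  · obtain ⟨i, hi⟩ := h
    have : {ω : ι → ℕ | y ∈ Sel G ω} = {ω | ω i = y} := by
      ext ω
      constructor
      · rintro ⟨j, hj, hω⟩
        have := hdisj i j y hi hj
        subst this
        exact hω
      · intro hω
        exact ⟨i, hi, hω⟩
    rw [this]
    exact (measurableSet_singleton y).preimage (measurable_pi_apply (X := fun _ : ι => ℕ) i)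
  · have : {ω : ι → ℕ | y ∈ Sel G ω} = ∅ := by
      ext ω
      simp only [Set.mem_ofPred_eq, Set.mem_empty_iff_false, iff_false]
      rintro ⟨j, hj, _⟩
      exact h ⟨j, hj⟩
    rw [this]
    exact MeasurableSet.empty

lemma measurableSet_sub (hdisj : ∀ i j y, y ∈ G i → y ∈ G j → i = j) (Y : Finset ℕ) :
    MeasurableSet {ω : ι → ℕ | ∀ y ∈ Y, y ∈ Sel G ω} := by
  have : {ω : ι → ℕ | ∀ y ∈ Y, y ∈ Sel G ω} = ⋂ y ∈ Y, {ω : ι → ℕ | y ∈ Sel G ω} := by
    ext ω; simp
  rw [this]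
  exact Finset.measurableSet_biInter _ (fun y _ => measurableSet_sel G hdisj y)

lemma mu_le (hne : ∀ i, (G i).Nonempty) (hdisj : ∀ i j y, y ∈ G i → y ∈ G j → i = j)
    (w : ℕ → ℝ≥0∞) (hw : ∀ i, ∀ y ∈ G i, ((G i).card : ℝ≥0∞)⁻¹ ≤ w y) (Y : Finset ℕ) :
    mu G hne {ω : ι → ℕ | ∀ y ∈ Y, y ∈ Sel G ω} ≤ ∏ y ∈ Y, w y := by
  classical
  by_cases h : ∀ y ∈ Y, ∃ i, y ∈ G i
  · rcases Y.eq_empty_or_nonempty with hYe | hYne
    · subst hYe
      simp
    have : Nonempty ι := ⟨(h _ hYne.choose_spec).choose⟩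
    choose! grp hgrp using h
    by_cases hinj : Set.InjOn grp (Y : Set ℕ)
    · have hsub : {ω : ι → ℕ | ∀ y ∈ Y, y ∈ Sel G ω} ⊆
          Set.pi (Y.image grp) (fun i => {z | ∀ y ∈ Y, grp y = i → z = y}) := by
        intro ω hω i _ y hy hyi
        obtain ⟨j, hj, hj2⟩ := hω y hy
        have := hdisj j (grp y) y hj (hgrp y hy)
        subst this
        rw [← hyi]
        exact hj2
      refine (measure_mono hsub).trans ?_
      unfold mu
      rw [Measure.infinitePi_pi _ (fun i _ => MeasurableSet.of_discrete),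
        Finset.prod_image hinj]
      apply Finset.prod_le_prod' 
      intro y hy
      have hset : {z | ∀ y' ∈ Y, grp y' = grp y → z = y'} ⊆ {y} := by
        intro z hz
        exact hz y hy rfl
      refine (measure_mono hset).trans ?_
      rw [PMF.toMeasure_apply_singleton _ _ (measurableSet_singleton _)]
      rw [PMF.uniformOfFinset_apply_of_mem _ (hgrp y hy)]
      exact hw _ _ (hgrp y hy)
    · have : {ω : ι → ℕ | ∀ y ∈ Y, y ∈ Sel G ω} = ∅ := by
        ext ω
        simp only [Set.mem_ofPred_eq, Set.mem_empty_iff_false, iff_false]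
        intro hω
        apply hinj
        intro y hy y' hy' hyy
        obtain ⟨j, hj, hj2⟩ := hω y hy
        obtain ⟨j', hj', hj2'⟩ := hω y' hy'
        have e1 := hdisj j (grp y) y hj (hgrp y hy)
        have e2 := hdisj j' (grp y') y' hj' (hgrp y' hy')
        subst e1
        subst e2
        rw [← hj2, ← hj2', hyy]
      rw [this]
      simp
  · have : {ω : ι → ℕ | ∀ y ∈ Y, y ∈ Sel G ω} = ∅ := by
      push Not at h
      obtain ⟨y, hy, hy2⟩ := h
      ext ω
      simp only [Set.mem_ofPred_eq, Set.mem_empty_iff_false, iff_false]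
      intro hω
      obtain ⟨j, hj, _⟩ := hω y hy
      exact hy2 j hj
    rw [this]
    simp

/-- The first moment method: there is a choice for which the weighted number of the configurations
is at most its expectation. -/
lemma exists_choice {κ : Type} [Countable ι] (hne : ∀ i, (G i).Nonempty)
    (hdisj : ∀ i j y, y ∈ G i → y ∈ G j → i = j)
    (w : ℕ → ℝ≥0∞) (hw : ∀ i, ∀ y ∈ G i, ((G i).card : ℝ≥0∞)⁻¹ ≤ w y)
    (a : ℕ → ℝ≥0∞) (C : ℕ → Finset κ) (Y : κ → Finset ℕ) :
    ∃ ω : ι → ℕ, (∀ i, ω i ∈ G i) ∧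
      ∑' J, a J * ∑ c ∈ C J, Set.indicator {ω | ∀ y ∈ Y c, y ∈ Sel G ω} (fun _ => (1 : ℝ≥0∞)) ω
        ≤ ∑' J, a J * ∑ c ∈ C J, ∏ y ∈ Y c, w y := by
  classical
  set f : (ι → ℕ) → ℝ≥0∞ := fun ω => ∑' J, a J * ∑ c ∈ C J,
    Set.indicator {ω | ∀ y ∈ Y c, y ∈ Sel G ω} (fun _ => (1 : ℝ≥0∞)) ω with hf
  have hm : ∀ c, Measurable (Set.indicator {ω : ι → ℕ | ∀ y ∈ Y c, y ∈ Sel G ω}
      (fun _ => (1 : ℝ≥0∞))) := fun c =>
    measurable_const.indicator (measurableSet_sub G hdisj (Y c))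
  have hm2 : ∀ J, Measurable (fun ω : ι → ℕ => a J * ∑ c ∈ C J,
      Set.indicator {ω | ∀ y ∈ Y c, y ∈ Sel G ω} (fun _ => (1 : ℝ≥0∞)) ω) := fun J =>
    (Finset.measurable_sum _ (fun c _ => hm c)).const_mul _
  have hfm : Measurable f := Measurable.tsum hm2
  have hae : ∀ᵐ ω ∂(mu G hne), ∀ i, ω i ∈ G i := by
    rw [ae_all_iff]
    intro i
    have hmp := measurePreserving_eval_infinitePi
      (fun i => (PMF.uniformOfFinset (G i) (hne i)).toMeasure) i
    have : ∀ᵐ z ∂((PMF.uniformOfFinset (G i) (hne i)).toMeasure), z ∈ G i := by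
      rw [ae_iff]
      rw [PMF.toMeasure_uniformOfFinset_apply _ _ MeasurableSet.of_discrete]
      simp
    exact hmp.quasiMeasurePreserving.ae this
  obtain ⟨ω, hω2, hω⟩ := exists_notMem_null_le_lintegral (μ := mu G hne) hfm.aemeasurable
    (N := {ω | ∀ i, ω i ∈ G i}ᶜ) (mem_ae_iff.1 hae)
  simp only [Set.mem_compl_iff, not_not] at hω2
  refine ⟨ω, hω2, hω.trans ?_⟩
  rw [hf, lintegral_tsum (fun J => (hm2 J).aemeasurable)]
  apply ENNReal.tsum_le_tsum
  intro J
  rw [lintegral_const_mul _ (Finset.measurable_sum _ (fun c _ => hm c)),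
    lintegral_finsetSum _ (fun c _ => hm c)]
  gcongr with c hc
  rw [lintegral_indicator (measurableSet_sub G hdisj (Y c))]
  simp only [lintegral_const, MeasurableSet.univ, Measure.restrict_apply, Set.univ_inter, one_mul]
  exact mu_le G hne hdisj w hw (Y c)

end Pool.Agent.V8H1.ChG
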